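import Pool.Agent.H.MP_1611f1_gt.PF.CvsB

/-!
The curves of a plan, in the form of part B.
-/

namespace Pool.Agent.H.MP_1611f1_gt.PF

open Topology Set Filter
open Pool.Agent.H.MP_1611f1_gt.BR.U (Ci)
open Pool.Agent.H.MP_1611f1_gt.G (MTorus Ended)
open Pool.Agent.H.MP_1611f1_gt.LG (Cylinder Drilled)
open Pool.Agent.H.MP_1611f1_gt.PD (Design Cv)
open Pool.Agent.H.MP_1611f1_gt.PA (VX CX PPar)
open Pool.Agent.H.MP_1611f1_gt.PZ (Lf Cvs wph box9 K8)

namespace Plan

variable {S : Type} [TopologicalSpace S] {J : Type} {old : J → Prop} {A : Type}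
  {D : Design S {j // old j} A} {W I : Type}
  (Q : Plan D W I) {M : Type} [TopologicalSpace M] {T : Ended M {j // old j}}
  (Mt : MTorus D.E (Homeomorph.refl S) T) (P : A → PPar) (q : A ⊕ (W ⊕ I) ≃ {j // ¬ old j})

open Classical in
/-- half of the number of colour changes -/
noncomputable def kk (j : J) : ℕ :=
  if h : ¬ old j then Sum.elim (fun _ => 0) (Sum.elim (fun _ => 0) Q.k) (q.symm ⟨j, h⟩) else 0

theorem kk_old {j : J} (h : old j) : Q.kk q j = 0 := by
  unfold kk
  rw [dif_neg (not_not.2 h)]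

theorem kk_q (c : A ⊕ (W ⊕ I)) :
    Q.kk q (q c).1 = Sum.elim (fun _ => 0) (Sum.elim (fun _ => 0) Q.k) c := by
  unfold kk
  rw [dif_pos (q c).2]
  congr 1
  exact q.symm_apply_apply c

variable [T2Space S] [Fintype A] [Nonempty A]

/-- **The curves.** -/
noncomputable def cvs : Cvs (D.boxes Mt) (D.F0 Mt P Q.n_pos) T (fun j => Q.nbh Mt (q.symm j))
    (fun i => q (.inl i)) {j | ∃ c, j = q (.inr (.inl c))} (Q.kk q) where
  away i j z := tor_core Mt i j z
  e_inj i j h := Sum.inl_injective (q.injective h)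
  e_notMem i := by
    rintro ⟨c, hc⟩
    have := q.injective hc
    cases this
  e_nbh i z := by
    show Q.nbh Mt (q.symm (q (.inl i))) z = _
    rw [q.symm_apply_apply]
    rfl
  k_old j hj := Q.kk_old q hj
  k_e i := by
    rw [Q.kk_q]
    rfl
  k_C := by
    rintro j ⟨c, rfl⟩
    rw [Q.kk_q]
    rfl
  ph j := Q.ph Mt (q.symm j)
  nbh := by
    intro j hj z h1 h2
    show Q.nbh Mt (q.symm j) z = Q.ph Mt (q.symm j) _
    obtain ⟨c, rfl⟩ := q.surjective j
    rw [q.symm_apply_apply]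
    rcases c with i | c | c
    · exact absurd rfl (hj i)
    · rfl
    · rfl
  ci j := Sum.elim (fun _ => Classical.arbitrary A) (Sum.elim Q.ci (fun _ => Classical.arbitrary A))
    (q.symm j)
  l j := Sum.elim (fun _ => 0) (Sum.elim Q.l (fun _ => 0)) (q.symm j)
  ρ := Q.ρ
  ρ_pos := Q.ρ_pos
  ρ_le := Q.ρ_le
  l_mem := by
    rintro j ⟨c, rfl⟩
    rw [q.symm_apply_apply]
    exact Q.l_mem c
  C_ph := by
    rintro j ⟨c, rfl⟩
    rw [q.symm_apply_apply]
    rfl
  lf j h1 h2 := Classical.choice <| by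
    obtain ⟨c, rfl⟩ := q.surjective j
    rw [Q.kk_q]
    simp only [q.symm_apply_apply]
    rcases c with i | c | c
    · exact absurd rfl (h1 i)
    · exact absurd ⟨c, rfl⟩ h2
    · exact ⟨(Q.cv c).toLf Mt P Q.n_pos Q.ρ_pos Q.ρ_le⟩
  tube := by
    intro j hj z hz i
    obtain ⟨c, rfl⟩ := q.surjective j
    rw [q.symm_apply_apply]
    rcases c with i | c
    · exact absurd rfl (hj i)
    · exact Q.ph_tube Mt c z hz i
  ph_away := by
    intro j hj z hz m w
    obtain ⟨c, rfl⟩ := q.surjective j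
    rw [q.symm_apply_apply]
    rcases c with i | c
    · exact absurd rfl (hj i)
    · exact Q.ph_away Mt c z hz m w
  ph_disj := by
    intro j m hj hm z hz w hw h
    obtain ⟨c, rfl⟩ := q.surjective j
    obtain ⟨d, rfl⟩ := q.surjective m
    rw [q.symm_apply_apply, q.symm_apply_apply] at h
    rcases c with i | c
    · exact absurd rfl (hj i)
    rcases d with i | d
    · exact absurd rfl (hm i)
    rw [Q.ph_disj Mt c d z w hz hw h]

end Plan

end Pool.Agent.H.MP_1611f1_gt.PF
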