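import Pool.Agent.H.MP_1611f1_gt.PF.Defs
import Pool.Agent.H.MP_1611f1_gt.PD.Cv

/-!
The coordinates around the curves of a plan: they do not meet the tubes and the ends.
-/

namespace Pool.Agent.H.MP_1611f1_gt.PF

open Topology Set Filter
open Pool.Agent.H.MP_1611f1_gt.BR.U (Ci cl hlf yt coe_cl cl_mem cl_coe cl_zero cl_contAt norm_cl
  coe_yt yt_mem yt_coe yt_contAt yt_of_nonpos yt_of_pos)
open Pool.Agent.H.MP_1611f1_gt.G (MTorus Ended)
open Pool.Agent.H.MP_1611f1_gt.LG (Cylinder Drilled)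
open Pool.Agent.H.MP_1611f1_gt.PD (Design Cv pt ZX KZ WZ Away Away' sg2)
open Pool.Agent.H.MP_1611f1_gt.PA (VX CX PPar)
open Pool.Agent.H.MP_1611f1_gt.TW (cov)
open Pool.Agent.H.MP_1611f1_gt.PZ (Lf Cvs wph box9 K8)

private theorem CvsA_lt {x c : ℝ} (h1 : c < x) (h2 : x < 1 - c) : c < ‖(x : Ci)‖ := by
  rw [UnitAddCircle.norm_eq]
  rcases le_or_gt (round x) 0 with h | h
  · have h3 : ((round x : ℤ) : ℝ) ≤ 0 := by exact_mod_cast h
    exact lt_of_lt_of_le (by linarith) (le_abs_self _)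
  · have h4 : (1 : ℤ) ≤ round x := h
    have h3 : (1 : ℝ) ≤ ((round x : ℤ) : ℝ) := by exact_mod_cast h4
    exact lt_of_lt_of_le (by linarith) (neg_le_abs _)

private theorem CvsA_norm {x : ℝ} (h : |x| < 1 / 2) : ‖(x : Ci)‖ = |x| := by
  have h' := abs_lt.1 h
  rw [norm_cl, cl_coe ⟨by linarith [h'.1], h'.2⟩]

private theorem CvsA_int (m : ℤ) : ((m : ℝ) : Ci) = 0 :=
  (AddCircle.coe_eq_zero_iff (1 : ℝ)).2 ⟨m, by simp⟩

private theorem CvsA_VX {z : Ci × Ci × Ci} (hz : z ∈ CX) : z ∈ VX := by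
  rcases hz with ⟨h, -⟩ | ⟨h, -⟩ | ⟨h, b, h1, h2, h3⟩
  · exact Or.inl (by linarith)
  · exact Or.inl (by linarith)
  · rcases h1.eq_or_lt with h4 | h4
    · left
      rw [h3, ← h4, AddCircle.coe_zero, norm_zero]
      norm_num
    · refine Or.inr ⟨?_, b, h4, by linarith, h3⟩
      rcases h with h | h
      · exact Or.inl (by linarith)
      · exact Or.inr (by linarith)

namespace Plan

variable {S : Type} [TopologicalSpace S] {J A : Type} {D : Design S J A} {W I : Type}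
  (Q : Plan D W I) {M : Type} [TopologicalSpace M] {T : Ended M J}
  (Mt : MTorus D.E (Homeomorph.refl S) T)

/-- coordinates around the curves; the curves of the design are only a dummy value -/
noncomputable def ph : A ⊕ (W ⊕ I) → Cylinder → M
  | .inl i, z => D.N Mt i (z.1, 0, 0)
  | .inr (.inl j), z => wph (D.boxes Mt) (Q.ci j) (Q.l j) Q.ρ z
  | .inr (.inr j), z => (Q.cv j).ph Mt z

private theorem CvsA_tor (m : J) (w : Ci × Ioo (1 : ℝ) 2 × Ci) :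
    T.tor m w = Mt.p (D.E.collar m (w.1, w.2.1), cl w.2.2) := by
  obtain ⟨θ, r, t⟩ := w
  have h := Mt.tor m θ r (cl t)
  rw [coe_cl] at h
  exact h

include Q in
private theorem CvsA_b (j : W) {z : Cylinder} (hz : z ∈ box9) :
    1 / 8 < Q.l j + Q.ρ * z.2.1 ∧ Q.l j + Q.ρ * z.2.1 < 1 / 4 := by
  have h1 := Q.l_mem j
  have h2 : |Q.ρ * z.2.1| < 9 * Q.ρ := by
    rw [abs_mul, abs_of_pos Q.ρ_pos]
    have := mul_lt_mul_of_pos_left hz.1 Q.ρ_pos
    linarith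
  have h3 := abs_lt.1 h2
  exact ⟨by linarith [h3.1, h1.1], by linarith [h3.2, h1.2]⟩

private theorem CvsA_bn (j : W) {z : Cylinder} (hz : z ∈ box9) :
    ‖((Q.l j + Q.ρ * z.2.1 : ℝ) : Ci)‖ < 1 / 4 := by
  have hb := Q.CvsA_b j hz
  have h1 : |Q.l j + Q.ρ * z.2.1| < 1 / 4 := abs_lt.2 ⟨by linarith [hb.1], hb.2⟩
  rw [CvsA_norm (by linarith)]
  exact h1

/-- PROOF: `T.tor j (θ, r, t) = Mt.p (collar (θ, r), t)` (`MTorus.tor`), `D.N Mt i z = Mt.p (D.w i .., ..)`, `D.p_eq_iff`, `D.out` (`CX ⊆ VX`, which is `ZX` for the first two coordinates). -/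
theorem tor_core (i : A) (j : J) (z : Ci × Ioo (1 : ℝ) 2 × Ci) :
    T.tor j z ∉ (D.boxes Mt).N i '' CX := by
  rintro ⟨z', hz', heq⟩
  have h1 : Mt.p (D.w i (z'.1, z'.2.1), D.tt i + D.sg i * cl z'.2.2) = T.tor j z := heq
  rw [CvsA_tor Mt] at h1
  exact D.out i (z'.1, z'.2.1) (CvsA_VX hz') j _ ((D.p_eq_iff Mt _ _ _ _).1 h1).1

/-- PROOF: as `tor_core`; for the curves `cv` by `Cv.out`, for the circles by `D.out`. -/
theorem ph_away (c : W ⊕ I) (z : Cylinder) (hz : z ∈ box9) (m : J)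
    (w : Ci × Ioo (1 : ℝ) 2 × Ci) : Q.ph Mt (.inr c) z ≠ T.tor m w := by
  intro h
  rw [CvsA_tor Mt] at h
  rcases c with c | c
  · have h1 : Mt.p (D.w (Q.ci c) (((1 / 4 + Q.ρ * z.2.2 : ℝ) : Ci),
        ((Q.l c + Q.ρ * z.2.1 : ℝ) : Ci)), D.tt (Q.ci c) + D.sg (Q.ci c) * cl z.1) =
        Mt.p (D.E.collar m (w.1, w.2.1), cl w.2.2) := h
    have hZ : ((((1 / 4 + Q.ρ * z.2.2 : ℝ) : Ci), ((Q.l c + Q.ρ * z.2.1 : ℝ) : Ci)) : Ci × Ci) ∈
      ZX := Or.inl (Q.CvsA_bn c hz)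
    exact D.out (Q.ci c) _ hZ m (w.1, w.2.1) ((D.p_eq_iff Mt _ _ _ _).1 h1).1
  · have h1 : Mt.p ((Q.cv c).ν (z.1, z.2.1), (Q.cv c).i / Q.n + Q.ρ * z.2.2) =
        Mt.p (D.E.collar m (w.1, w.2.1), cl w.2.2) := h
    exact (Q.cv c).out (z.1, z.2.1) hz.1 m _ ((D.p_eq_iff Mt _ _ _ _).1 h1).1

/-- a curve `cv` at the time `i/n + ρ s` is not near a crossing or given by a point of a box. Either `θ` is outside of the zones of the
crossings, or in one of them. -/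
theorem away_or {k : ℕ} (θ : ℝ) : Away' k θ ∨
    (0 < k ∧ ∃ (m : ℤ) (v : ℝ), θ = m / (2 * k) + v ∧ |v| < 1 / (8 * k)) := by
  by_cases h' : Away' k θ
  · exact Or.inl h'
  · right
    unfold Away' at h'
    push Not at h'
    obtain ⟨hk, m, hm⟩ := h'
    exact ⟨hk, m, θ - m / (2 * k), by ring, hm⟩

private theorem CvsA_cv {n : ℕ} {ρ : ℝ} {k : ℕ} (C : Cv D n ρ k) (hρ : 0 < ρ) (hρ' : ρ ≤ 1 / 288)
    (θ : ℝ) (v : ℝ × ℝ) (h1 : |v.1| < 9) (h2 : |v.2| < 9) (i : A) :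
    C.ph Mt ((θ : Ci), v) ∉ D.N Mt i '' K8 := by
  rintro ⟨z, hz, heq⟩
  have hρn : |ρ * v.2| < 9 * ρ := by
    rw [abs_mul, abs_of_pos hρ]
    have := mul_lt_mul_of_pos_left h2 hρ
    linarith
  have hVX : z ∈ VX := Or.inl (lt_of_le_of_lt hz.1 (by norm_num))
  rcases away_or (k := k) θ with hA | ⟨hk, m, v0, hθ, hv0⟩
  · -- outside of the zones
    have heq' : Mt.p (D.w i (z.1, z.2.1), D.tt i + D.sg i * cl z.2.2) =
        Mt.p (C.ν ((θ : Ci), v.1), C.i / n + ρ * v.2) := heq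
    obtain ⟨hx, m, hm⟩ := (D.p_eq_iff Mt _ _ _ _).1 heq'
    obtain ⟨-, himp⟩ := C.off θ v.1 h1 hA i (z.1, z.2.1) hVX hx.symm
    obtain ⟨-, l, h4, h5⟩ := himp hz.1
    have h6 : |D.sg i * (ρ * v.2)| < 9 * ρ := by
      rcases D.sg_pm i with h | h
      · rw [h, one_mul]
        exact hρn
      · rw [h, neg_one_mul, abs_neg]
        exact hρn
    have h7 := abs_lt.1 h6
    have h8 : z.2.2 = ((D.sg i * (C.i / n - D.tt i) + l + D.sg i * (ρ * v.2) : ℝ) : Ci) := by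
      rcases D.sg_pm i with h | h
      · have e : D.sg i * (C.i / n - D.tt i) + l + D.sg i * (ρ * v.2) =
            cl z.2.2 + ((m + l : ℤ) : ℝ) := by
          rw [h] at hm ⊢
          push_cast
          linarith
        rw [e, AddCircle.coe_add, CvsA_int, add_zero, coe_cl]
      · have e : D.sg i * (C.i / n - D.tt i) + l + D.sg i * (ρ * v.2) =
            cl z.2.2 + ((-m + l : ℤ) : ℝ) := by
          rw [h] at hm ⊢
          push_cast
          linarith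
        rw [e, AddCircle.coe_add, CvsA_int, add_zero, coe_cl]
    have h9 := hz.2
    rw [h8] at h9
    exact absurd h9 (not_le.2 (CvsA_lt (by linarith [h7.1]) (by linarith [h7.2])))
  · -- in the zone of a crossing
    have hk' : (0 : ℝ) < k := by exact_mod_cast hk
    obtain ⟨a0, ha0⟩ : ∃ a0 : ℝ, a0 = 1 / 2 + sg2 m * ρ * v.1 := ⟨_, rfl⟩
    obtain ⟨b0, hb0⟩ : ∃ b0 : ℝ, b0 = -(sg2 m * D.sg (C.bx m)) * (3 * k / 2) * v0 := ⟨_, rfl⟩
    obtain ⟨t0, ht0⟩ : ∃ t0 : ℝ, t0 = 5 / 8 + D.sg (C.bx m) * ρ * v.2 := ⟨_, rfl⟩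
    have hph := C.ph_cross Mt hk m v0 v.1 v.2 hv0 h1 h2
    rw [← hθ, ← ha0, ← hb0, ← ht0] at hph
    rw [hph] at heq
    have hs1 : |sg2 m| = 1 := by
      unfold sg2
      split_ifs <;> norm_num
    have hs2 : |D.sg (C.bx m)| = 1 := by
      rcases D.sg_pm (C.bx m) with h | h <;> rw [h] <;> norm_num
    have ht : |t0 - 5 / 8| < 1 / 32 := by
      rw [ht0, add_sub_cancel_left, abs_mul, abs_mul, hs2, one_mul, abs_of_pos hρ]
      have := mul_lt_mul_of_pos_left h2 hρ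
      linarith
    have hb : |b0| = 3 * k / 2 * |v0| := by
      rw [hb0, abs_mul, abs_mul, abs_neg, abs_mul, hs1, hs2, one_mul, one_mul,
        abs_of_pos (by positivity : (0 : ℝ) < 3 * k / 2)]
    have hb2 : |b0| < 3 / 16 := by
      rw [hb]
      have h3 : 3 * k / 2 * (1 / (8 * k : ℝ)) = 3 / 16 := by field_simp; norm_num
      rw [← h3]
      exact mul_lt_mul_of_pos_left hv0 (by positivity)
    have hnb : ‖(b0 : Ci)‖ = |b0| := CvsA_norm (by linarith)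
    have hV0 : cov (a0, b0, t0) ∈ VX := Or.inl (by
      show ‖(b0 : Ci)‖ < 1 / 4
      linarith)
    have ht' := abs_lt.1 ht
    rcases D.N_sep Mt i (C.bx m) z _ hVX hV0 heq with ⟨-, h3⟩ |
      ⟨-, a1, b1, t1, h3, h4, h5, -, h6⟩ | ⟨-, a1, b1, t1, h3, h4, h5, h6, -⟩
    · rw [h3] at hz
      have h5 : ‖(t0 : Ci)‖ ≤ 1 / 8 := hz.2
      exact absurd h5 (not_le.2 (CvsA_lt (by linarith [ht'.1]) (by linarith [ht'.2])))
    · have h7 : (b0 : Ci) = ((1 - b1 : ℝ) : Ci) := congrArg (fun w : Ci × Ci × Ci => w.2.1) h6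
      have h8 : (3 / 8 : ℝ) < ‖((1 - b1 : ℝ) : Ci)‖ := CvsA_lt (by linarith) (by linarith)
      rw [← h7] at h8
      linarith
    · have h7 : (b0 : Ci) = (b1 : Ci) := congrArg (fun w : Ci × Ci × Ci => w.2.1) h6
      have h8 : (3 / 8 : ℝ) < ‖(b1 : Ci)‖ := CvsA_lt (by linarith) (by linarith)
      rw [← h7] at h8
      linarith

/-- PROOF. Circles: `b = l + ρ u ∈ (1/8, 1/4)`, but `‖b‖ ≤ 1/8` on `K8`; another box: `D.N_sep`, the glued parts have `3/8 < b < 5/8`.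
Curves `cv`: by `away_or`. `Away'`: `Cv.off` for the point `(a, b)` of the box `i`, `‖b‖ ≤ 1/8`: the box time is congruent to `sg (i/n - tt) + l + sg ρ s`, which is in
`(1/8, 3/8)`, so its norm is `> 1/8`. In a crossing: `Cv.ph_cross`, `D.N_sep`: the box time is `5/8 ± ρ s`, its norm is `> 1/8`, and in the glued
parts `3/8 < b < 5/8`. -/
theorem ph_tube (c : W ⊕ I) (z : Cylinder) (hz : z ∈ box9) (i : A) :
    Q.ph Mt (.inr c) z ∉ (D.boxes Mt).N i '' K8 := by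
  rcases c with c | c
  · rintro ⟨z', hz', heq⟩
    have hVX : z' ∈ VX := Or.inl (lt_of_le_of_lt hz'.1 (by norm_num))
    have hb := Q.CvsA_b c hz
    have hn := Q.CvsA_bn c hz
    obtain ⟨q, hq⟩ : ∃ q : Ci × Ci × Ci, q = (((1 / 4 + Q.ρ * z.2.2 : ℝ) : Ci),
      ((Q.l c + Q.ρ * z.2.1 : ℝ) : Ci), z.1) := ⟨_, rfl⟩
    have h1 : D.N Mt i z' = D.N Mt (Q.ci c) q := by
      rw [hq]
      exact heq
    have hV : q ∈ VX := by
      rw [hq]
      exact Or.inl hn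
    rcases D.N_sep Mt i (Q.ci c) z' q hVX hV h1 with ⟨-, h3⟩ |
      ⟨-, a1, b1, t1, h3, h4, h5, -, h6⟩ | ⟨-, a1, b1, t1, h3, h4, h5, h6, -⟩
    · rw [h3, hq] at hz'
      have h4 : ‖((Q.l c + Q.ρ * z.2.1 : ℝ) : Ci)‖ ≤ 1 / 8 := hz'.1
      exact absurd h4 (not_le.2 (CvsA_lt hb.1 (by linarith [hb.2])))
    · rw [hq] at h6
      have h7 : ((Q.l c + Q.ρ * z.2.1 : ℝ) : Ci) = ((1 - b1 : ℝ) : Ci) :=
        congrArg (fun w : Ci × Ci × Ci => w.2.1) h6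
      have h8 : (3 / 8 : ℝ) < ‖((1 - b1 : ℝ) : Ci)‖ := CvsA_lt (by linarith) (by linarith)
      rw [← h7] at h8
      linarith
    · rw [hq] at h6
      have h7 : ((Q.l c + Q.ρ * z.2.1 : ℝ) : Ci) = (b1 : Ci) :=
        congrArg (fun w : Ci × Ci × Ci => w.2.1) h6
      have h8 : (3 / 8 : ℝ) < ‖(b1 : Ci)‖ := CvsA_lt (by linarith) (by linarith)
      rw [← h7] at h8
      linarith
  · obtain ⟨θ0, v⟩ := z
    obtain ⟨θ, rfl⟩ : ∃ θ : ℝ, (θ : Ci) = θ0 := ⟨cl θ0, coe_cl _⟩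
    exact CvsA_cv Mt (Q.cv c) Q.ρ_pos Q.ρ_le θ v hz.1 hz.2 i

end Plan

end Pool.Agent.H.MP_1611f1_gt.PF
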