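import Pool.Agent.H.MP_1611f1_gt.PF.CvsA

/-!
The coordinates around the curves of a plan: they are disjoint.
-/

namespace Pool.Agent.H.MP_1611f1_gt.PF

open Topology Set Filter
open Pool.Agent.H.MP_1611f1_gt.BR.U (Ci cl hlf yt coe_cl cl_mem cl_coe cl_zero cl_contAt norm_cl
  coe_yt yt_mem yt_coe yt_contAt yt_of_nonpos yt_of_pos)
open Pool.Agent.H.MP_1611f1_gt.G (MTorus Ended)
open Pool.Agent.H.MP_1611f1_gt.LG (Cylinder Drilled)
open Pool.Agent.H.MP_1611f1_gt.PD (Design Cv pt ZX KZ WZ Away Away' sg2)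
open Pool.Agent.H.MP_1611f1_gt.PA (VX CX PPar)
open Pool.Agent.H.MP_1611f1_gt.TW (cov)
open Pool.Agent.H.MP_1611f1_gt.PZ (Lf Cvs wph box9 K8)

private theorem CvsB_surj (x : Ci) : ∃ θ : ℝ, (θ : Ci) = x := QuotientAddGroup.mk_surjective x

private theorem CvsB_lt {x c : ℝ} (h1 : c < x) (h2 : x < 1 - c) : c < ‖(x : Ci)‖ := by
  rw [UnitAddCircle.norm_eq]
  rcases le_or_gt (round x) 0 with h | h
  · have h3 : ((round x : ℤ) : ℝ) ≤ 0 := by exact_mod_cast h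
    exact lt_of_lt_of_le (by linarith) (le_abs_self _)
  · have h4 : (1 : ℤ) ≤ round x := h
    have h3 : (1 : ℝ) ≤ ((round x : ℤ) : ℝ) := by exact_mod_cast h4
    exact lt_of_lt_of_le (by linarith) (neg_le_abs _)

private theorem CvsB_le (x : ℝ) : ‖(x : Ci)‖ ≤ |x| := by
  rw [UnitAddCircle.norm_eq]
  have h := round_le x 0
  simpa using h

private theorem CvsB_ne {x y : ℝ} (h1 : y < x) (h2 : x < y + 1) : (x : Ci) ≠ (y : Ci) := by
  intro h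
  have h3 : (0 : ℝ) < ‖((x - y : ℝ) : Ci)‖ := CvsB_lt (by linarith) (by linarith)
  rw [AddCircle.coe_sub, h, sub_self, norm_zero] at h3
  exact lt_irrefl _ h3

/-- equal points of the circle with representatives in `(1/8, 1/4)` -/
private theorem CvsB_eq {x y : ℝ} (h : (x : Ci) = (y : Ci)) (h1 : x < y + 1) (h2 : y < x + 1) :
    x = y := by
  rcases lt_trichotomy x y with h3 | h3 | h3
  · exact absurd h.symm (CvsB_ne h3 h2)
  · exact h3
  · exact absurd h (CvsB_ne h3 h1)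

private theorem CvsB_mul {ρ u : ℝ} (hρ : 0 < ρ) (hu : |u| < 9) : |ρ * u| < 9 * ρ := by
  rw [abs_mul, abs_of_pos hρ]
  nlinarith

private theorem CvsB_pm (m : ℤ) : sg2 m = 1 ∨ sg2 m = -1 := by
  unfold sg2
  split_ifs
  · exact Or.inl rfl
  · exact Or.inr rfl

namespace Plan

variable {S : Type} [TopologicalSpace S] {J A : Type} {D : Design S J A} {W I : Type}
  (Q : Plan D W I) {M : Type} [TopologicalSpace M] {T : Ended M J}
  (Mt : MTorus D.E (Homeomorph.refl S) T)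

include Q in
/-- the second coordinate of a circle over a point of a wall -/
private theorem CvsB_b (j : W) {u : ℝ} (hu : |u| < 9) :
    1 / 8 < Q.l j + Q.ρ * u ∧ Q.l j + Q.ρ * u < 1 / 4 := by
  have h1 := Q.l_mem j
  have h2 := abs_lt.1 (CvsB_mul Q.ρ_pos hu)
  constructor <;> linarith

/-- PROOF: `D.p_eq_iff`: the points of the surface are equal, the times differ by an integer `m`; if `j ≠ m`, `Q.sep` says that `i - i'` is not divisible by `n`, but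
`|i - i' + m n| = n ρ |s - s'| < 18 n ρ ≤ 1`. -/
theorem disj_II (j m : I) (z w : Cylinder) (hz : z ∈ box9) (hw : w ∈ box9)
    (h : (Q.cv j).ph Mt z = (Q.cv m).ph Mt w) : j = m := by
  obtain ⟨θ, u, s⟩ := z
  obtain ⟨θ', u', s'⟩ := w
  by_contra hne
  have h1 : Mt.p ((Q.cv j).ν (θ, u), (Q.cv j).i / Q.n + Q.ρ * s) =
      Mt.p ((Q.cv m).ν (θ', u'), (Q.cv m).i / Q.n + Q.ρ * s') := h
  obtain ⟨hx, l, hl⟩ := (D.p_eq_iff Mt _ _ _ _).1 h1
  refine Q.sep j m hne (θ, u) (θ', u') hz.1 hw.1 hx ⟨-l, ?_⟩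
  have hn : (0 : ℝ) < Q.n := by exact_mod_cast Q.n_pos
  have hs := abs_lt.1 (hz.2 : |s| < 9)
  have hs' := abs_lt.1 (hw.2 : |s'| < 9)
  have h2 : ((Q.cv j).i - (Q.cv m).i + Q.n * l : ℝ) = Q.n * Q.ρ * (s' - s) := by
    have h3 : ((Q.cv m).i : ℝ) + Q.n * (Q.ρ * s') = (Q.cv j).i + Q.n * (Q.ρ * s) + Q.n * l := by
      have h4 := congrArg (fun y => (Q.n : ℝ) * y) hl
      simp only [mul_add] at h4
      rwa [mul_div_cancel₀ _ hn.ne', mul_div_cancel₀ _ hn.ne'] at h4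
    linear_combination -h3
  have hp : 0 < Q.n * Q.ρ := mul_pos hn Q.ρ_pos
  have h3 : |((Q.cv j).i - (Q.cv m).i + Q.n * l : ℝ)| < 1 := by
    rw [h2, abs_mul, abs_of_pos hp]
    have h4 : |s' - s| < 18 := by
      rw [abs_lt]
      constructor <;> linarith
    have h5 := mul_lt_mul_of_pos_left h4 hp
    have h6 := Q.ρ_n
    linarith
  have h4 : (Q.cv j).i - (Q.cv m).i + Q.n * l = 0 := by
    rw [← Int.abs_lt_one_iff]
    exact_mod_cast h3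
  linarith

/-- PROOF: `D.N_sep` (the glued parts have `3/8 < b < 5/8`, but `b = l + ρ u ∈ (1/8, 1/4)`), so the boxes are equal and `l j + ρ u = l m + ρ u'` (both in `(1/8, 1/4)`); `Q.l_sep`. -/
theorem disj_WW (j m : W) (z w : Cylinder) (hz : z ∈ box9) (hw : w ∈ box9)
    (h : wph (D.boxes Mt) (Q.ci j) (Q.l j) Q.ρ z = wph (D.boxes Mt) (Q.ci m) (Q.l m) Q.ρ w) :
    j = m := by
  obtain ⟨x, u, s⟩ := z
  obtain ⟨x', u', s'⟩ := w
  obtain ⟨hb1, hb2⟩ := Q.CvsB_b j (hz.1 : |u| < 9)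
  obtain ⟨hc1, hc2⟩ := Q.CvsB_b m (hw.1 : |u'| < 9)
  have h1 : D.N Mt (Q.ci j) (((1 / 4 + Q.ρ * s : ℝ) : Ci), ((Q.l j + Q.ρ * u : ℝ) : Ci), x) =
      D.N Mt (Q.ci m) (((1 / 4 + Q.ρ * s' : ℝ) : Ci), ((Q.l m + Q.ρ * u' : ℝ) : Ci), x') := h
  have hnb : ‖((Q.l j + Q.ρ * u : ℝ) : Ci)‖ < 1 / 4 := by
    refine (CvsB_le _).trans_lt ?_
    rwa [abs_of_pos (by linarith)]
  have hnc : ‖((Q.l m + Q.ρ * u' : ℝ) : Ci)‖ < 1 / 4 := by
    refine (CvsB_le _).trans_lt ?_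
    rwa [abs_of_pos (by linarith)]
  have hV : ((((1 / 4 + Q.ρ * s : ℝ) : Ci), ((Q.l j + Q.ρ * u : ℝ) : Ci), x) : Ci × Ci × Ci) ∈ VX :=
    Or.inl hnb
  have hV' : ((((1 / 4 + Q.ρ * s' : ℝ) : Ci), ((Q.l m + Q.ρ * u' : ℝ) : Ci), x') :
      Ci × Ci × Ci) ∈ VX := Or.inl hnc
  rcases D.N_sep Mt (Q.ci j) (Q.ci m) _ _ hV hV' h1 with
    ⟨h2, h3⟩ | ⟨-, a, b, t, -, h3, h4, h5, -⟩ | ⟨-, a, b, t, -, h3, h4, h5, -⟩
  · by_contra hne
    have h4 : ((Q.l j + Q.ρ * u : ℝ) : Ci) = ((Q.l m + Q.ρ * u' : ℝ) : Ci) :=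
      congrArg (fun y : Ci × Ci × Ci => y.2.1) h3
    have h5 := CvsB_eq h4 (by linarith) (by linarith)
    have h6 := Q.l_sep j m hne h2
    have h7 := abs_lt.1 (CvsB_mul Q.ρ_pos (hz.1 : |u| < 9))
    have h8 := abs_lt.1 (CvsB_mul Q.ρ_pos (hw.1 : |u'| < 9))
    have h9 : |Q.l j - Q.l m| < 18 * Q.ρ := by
      rw [abs_lt]
      constructor <;> linarith
    linarith
  · have h6 : ((Q.l j + Q.ρ * u : ℝ) : Ci) = (b : Ci) :=
      congrArg (fun y : Ci × Ci × Ci => y.2.1) h5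
    have h7 : 1 / 4 < ‖(b : Ci)‖ := CvsB_lt (by linarith) (by linarith)
    rw [h6] at hnb
    linarith
  · have h6 : ((Q.l m + Q.ρ * u' : ℝ) : Ci) = (b : Ci) :=
      congrArg (fun y : Ci × Ci × Ci => y.2.1) h5
    have h7 : 1 / 4 < ‖(b : Ci)‖ := CvsB_lt (by linarith) (by linarith)
    rw [h6] at hnc
    linarith

/-- PROOF: `D.p_eq_iff`: `w (ci j) (pt (1/4 + ρ s) (l + ρ u)) = ν (θ', u')`, by `away_or`. `Away'`: `Cv.off` says that the point is not in `WZ`, but `‖a - 1/4‖ ≤ 9/288`, `0 ≤ b ≤ 1/2`.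
In a crossing: `Cv.cross` and `D.sep`: the same box: `a = 1/4 + ρ s` and `a = 1/2 ± ρ u'` (mod 1), impossible; the glued parts have
`3/8 < b < 5/8` (mod 1), but `b = l + ρ u ∈ (1/8, 1/4)`. -/
theorem disj_WI (j : W) (m : I) (z w : Cylinder) (hz : z ∈ box9) (hw : w ∈ box9) :
    wph (D.boxes Mt) (Q.ci j) (Q.l j) Q.ρ z ≠ (Q.cv m).ph Mt w := by
  obtain ⟨x, u, s⟩ := z
  obtain ⟨x', u', s'⟩ := w
  obtain ⟨θ, rfl⟩ := CvsB_surj x'
  intro h
  have hρ := Q.ρ_le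
  obtain ⟨hb1, hb2⟩ := Q.CvsB_b j (hz.1 : |u| < 9)
  have hs := abs_lt.1 (CvsB_mul Q.ρ_pos (hz.2 : |s| < 9))
  have hu' : |u'| < 9 := hw.1
  have hu2 := abs_lt.1 (CvsB_mul Q.ρ_pos hu')
  have h1 : Mt.p (D.w (Q.ci j) (pt (1 / 4 + Q.ρ * s) (Q.l j + Q.ρ * u)),
      D.tt (Q.ci j) + D.sg (Q.ci j) * cl x) =
      Mt.p ((Q.cv m).ν ((θ : Ci), u'), (Q.cv m).i / Q.n + Q.ρ * s') := h
  have h2 := ((D.p_eq_iff Mt _ _ _ _).1 h1).1
  have hnb : ‖((Q.l j + Q.ρ * u : ℝ) : Ci)‖ < 1 / 4 := by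
    refine (CvsB_le _).trans_lt ?_
    rwa [abs_of_pos (by linarith)]
  have hZ : pt (1 / 4 + Q.ρ * s) (Q.l j + Q.ρ * u) ∈ ZX := Or.inl hnb
  rcases away_or (k := Q.k m) θ with h3 | ⟨hk, m', v, rfl, hv⟩
  · refine ((Q.cv m).off θ u' hu' h3 (Q.ci j) _ hZ h2.symm).1
      ⟨Or.inl ?_, Q.l j + Q.ρ * u, by linarith, by linarith, rfl⟩
    show ‖((1 / 4 + Q.ρ * s : ℝ) : Ci) - ((1 / 4 : ℝ) : Ci)‖ ≤ 1 / 16
    rw [← AddCircle.coe_sub]
    refine (CvsB_le _).trans ?_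
    rw [add_sub_cancel_left, abs_le]
    constructor <;> linarith
  · have h3 := (Q.cv m).cross hk m' v u' hv hu'
    have hk' : (0 : ℝ) < Q.k m := by exact_mod_cast hk
    have hb : |-(sg2 m' * D.sg ((Q.cv m).bx m')) * (3 * (Q.k m) / 2) * v| < 1 / 4 := by
      have h4 : |-(sg2 m' * D.sg ((Q.cv m).bx m'))| = 1 := by
        rcases CvsB_pm m' with e1 | e1 <;> rcases D.sg_pm ((Q.cv m).bx m') with e2 | e2 <;>
          rw [e1, e2] <;> norm_num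
      rw [abs_mul, abs_mul, h4, one_mul, abs_of_pos (by positivity : (0 : ℝ) < 3 * (Q.k m) / 2)]
      calc 3 * (Q.k m : ℝ) / 2 * |v| < 3 * (Q.k m) / 2 * (1 / (8 * (Q.k m))) :=
            mul_lt_mul_of_pos_left hv (by positivity)
        _ < 1 / 4 := by
            have h5 : 3 * (Q.k m : ℝ) / 2 * (1 / (8 * (Q.k m))) = 3 / 16 := by
              field_simp
              norm_num
            rw [h5]
            norm_num
    rw [← h2] at h3
    have hZ' : pt (1 / 2 + sg2 m' * Q.ρ * u')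
        (-(sg2 m' * D.sg ((Q.cv m).bx m')) * (3 * (Q.k m) / 2) * v) ∈ ZX :=
      Or.inl ((CvsB_le _).trans_lt hb)
    rcases D.sep _ _ _ hZ _ hZ' h3 with
      ⟨-, h4⟩ | ⟨-, a, b, -, h4, h5, h6, -⟩ | ⟨-, a, b, -, h4, h5, -, h6⟩
    · have h5 : ((1 / 4 + Q.ρ * s : ℝ) : Ci) = ((1 / 2 + sg2 m' * Q.ρ * u' : ℝ) : Ci) :=
        congrArg Prod.fst h4
      have h6 : sg2 m' * Q.ρ * u' = Q.ρ * u' ∨ sg2 m' * Q.ρ * u' = -(Q.ρ * u') := by
        rcases CvsB_pm m' with e | e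
        · left
          rw [e]
          ring
        · right
          rw [e]
          ring
      refine CvsB_ne ?_ ?_ h5.symm
      · rcases h6 with h6 | h6 <;> rw [h6] <;> linarith
      · rcases h6 with h6 | h6 <;> rw [h6] <;> linarith
    · have h7 : ((Q.l j + Q.ρ * u : ℝ) : Ci) = (b : Ci) := congrArg Prod.snd h6
      have h8 : 1 / 4 < ‖(b : Ci)‖ := CvsB_lt (by linarith) (by linarith)
      rw [h7] at hnb
      linarith
    · have h7 : ((Q.l j + Q.ρ * u : ℝ) : Ci) = ((1 - b : ℝ) : Ci) := congrArg Prod.snd h6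
      have h8 : 1 / 4 < ‖((1 - b : ℝ) : Ci)‖ := CvsB_lt (by linarith) (by linarith)
      rw [h7] at hnb
      linarith

theorem ph_disj (c d : W ⊕ I) (z w : Cylinder) (hz : z ∈ box9) (hw : w ∈ box9)
    (h : Q.ph Mt (.inr c) z = Q.ph Mt (.inr d) w) : c = d := by
  rcases c with c | c <;> rcases d with d | d
  · rw [Q.disj_WW Mt c d z w hz hw h]
  · exact absurd h (Q.disj_WI Mt c d z w hz hw)
  · exact absurd h.symm (Q.disj_WI Mt d c w z hw hz)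
  · rw [Q.disj_II Mt c d z w hz hw h]

end Plan

end Pool.Agent.H.MP_1611f1_gt.PF
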