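import Pool.Agent.H.MP_1611f1_gt.PD.CvD
import Pool.Agent.H.MP_1611f1_gt.LG.Defs

/-!
The curves which are removed from the product of a surface with a design and the circle.
-/

namespace Pool.Agent.H.MP_1611f1_gt.PF

open Topology Set Filter
open Pool.Agent.H.MP_1611f1_gt.BR.U (Ci)
open Pool.Agent.H.MP_1611f1_gt.G (MTorus Ended)
open Pool.Agent.H.MP_1611f1_gt.LG (Cylinder Drilled)
open Pool.Agent.H.MP_1611f1_gt.PD (Design Cv)

/-- The curves which are removed from `S × S¹`, besides the curves of the design `D`: circles `p × S¹`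
over points `p` of the walls (`j ∈ W`: the point `(1/4, l j)` of the box `ci j`), and curves `cv j` (`j ∈ I`) at times
in `ℤ/n`, with `2 k j` crossings where the colour changes (`PD.Cv`). Curves `cv j` at the same time are disjoint. -/
structure Plan {S : Type} [TopologicalSpace S] {J A : Type} (D : Design S J A) (W I : Type) where
  n : ℕ
  n_pos : 0 < n
  ρ : ℝ
  ρ_pos : 0 < ρ
  ρ_le : ρ ≤ 1 / 288
  ρ_n : 18 * n * ρ ≤ 1
  ci : W → A
  l : W → ℝ
  l_mem : ∀ j, 1 / 8 + 9 * ρ < l j ∧ l j < 1 / 4 - 9 * ρ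
  l_sep : ∀ j m, j ≠ m → ci j = ci m → 18 * ρ ≤ |l j - l m|
  k : I → ℕ
  cv : ∀ j, Cv D n ρ (k j)
  sep : ∀ j m, j ≠ m → ∀ z w : Ci × ℝ, |z.2| < 9 → |w.2| < 9 → (cv j).ν z = (cv m).ν w →
    ¬ (n : ℤ) ∣ (cv j).i - (cv m).i

namespace Plan

variable {S : Type} [TopologicalSpace S] {J A : Type} {D : Design S J A} {W I : Type}
  (Q : Plan D W I) {M : Type} [TopologicalSpace M] {T : Ended M J}
  (Mt : MTorus D.E (Homeomorph.refl S) T)

/-- The coordinates `(θ, (u, s))` around the curves, which are at `u = 0`, `s = -4`: for the curves of the design (`i ∈ A`) the point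
`(a, b, t) = (θ, u / 16, (s + 4) / 16)` of the box, for the circles over points of the walls the point
`(1/4 + ρ (s + 4), l j + ρ u, θ)` of the box, for the other curves the point `ν (θ, u)` at the time `i / n + ρ (s + 4)`. -/
noncomputable def nbh : A ⊕ (W ⊕ I) → Cylinder → M
  | .inl i, z => D.N Mt i (z.1, ((z.2.1 / 16 : ℝ) : Ci), (((z.2.2 + 4) / 16 : ℝ) : Ci))
  | .inr (.inl j), z => D.N Mt (Q.ci j) (((1 / 4 + Q.ρ * (z.2.2 + 4) : ℝ) : Ci),
      ((Q.l j + Q.ρ * z.2.1 : ℝ) : Ci), z.1)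
  | .inr (.inr j), z => Mt.p ((Q.cv j).ν (z.1, z.2.1), (Q.cv j).i / Q.n + Q.ρ * (z.2.2 + 4))

end Plan

end Pool.Agent.H.MP_1611f1_gt.PF
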