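import Pool.Agent.H.MP_1611f1_gt.PF.Defs

/-!
The pieces of the theorem on surfaces with two colours.
-/

namespace Pool.Agent.H.MP_1611f1_gt.PF

open Topology Set Filter
open Pool.Agent.H.MP_1611f1_gt.BR.U (Ci)
open Pool.Agent.H.MP_1611f1_gt.G (Ended Linear MTorus Detected)
open Pool.Agent.H.MP_1611f1_gt.LG (Drilled Cylinder)
open Pool.Agent.H.MP_1611f1_gt.PD (Design Cv)

/-- The pieces of the main theorem, with the admissible covectors `(x j, y j)` at their ends `j`.
* `sided`: the product `M₀` of a surface `S` with a design `D` and the circle, minus the curves of `D` (`i ∈ A`), circles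
  over points of the walls (`j ∈ W`) and other curves (`j ∈ I`), which are given by a plan `Q`; `q` numbers them. For a sign `ε` the
  covectors satisfy `0 < ε x ≤ -ε y` at the curves of `D`, `x ≠ 0` at the circles, `x + (k j) y ≠ 0` at the
  other curves; and at the ends of `M₀` `x = 0`, `0 < ε y` if the colour of the collar is `1`, `ε y < 0` if it is `-1`.
* `fol`: a manifold with a taut foliation which is given by `x j * θ + y j * t = const` near its ends. -/
inductive Good {M : Type} [TopologicalSpace M] {J : Type} (T : Ended M J) (x y : J → ℝ) : Prop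
  | sided {S : Type} [TopologicalSpace S] {A W I : Type} [Finite A] [Nonempty A] [Finite W] [Finite I]
      (old : J → Prop) (D : Design S {j // old j} A) (Q : Plan D W I)
      {M₀ : Type} [TopologicalSpace M₀] [T2Space M₀] (T₀ : Ended M₀ {j // old j})
      (Mt : MTorus D.E (Homeomorph.refl S) T₀) (q : A ⊕ (W ⊕ I) ≃ {j // ¬ old j})
      (Dr : Drilled T₀ (fun j => Q.nbh Mt (q.symm j)) T) (ε : ℝ) (hε : ε = 1 ∨ ε = -1)
      (hold : ∀ j : {j // old j}, x j = 0 ∧ ∀ z, 0 < ε * y j * D.col (D.E.collar j z))
      (hA : ∀ i, 0 < ε * x (q (.inl i)) ∧ ε * x (q (.inl i)) ≤ -(ε * y (q (.inl i))))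
      (hW : ∀ j, x (q (.inr (.inl j))) ≠ 0)
      (hI : ∀ j, x (q (.inr (.inr j))) + Q.k j * y (q (.inr (.inr j))) ≠ 0) : Good T x y
  | fol [T2Space M] (h : Detected T x y) : Good T x y

end Pool.Agent.H.MP_1611f1_gt.PF
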