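import Pool.Agent.H.MP_1611f1_gt.PF.Defs
import Pool.Agent.H.MP_1611f1_gt.PD.Germ

/-!
The old foliation of a design is linear near the ends.
-/

namespace Pool.Agent.H.MP_1611f1_gt.PF

open Topology Set Filter
open Pool.Agent.H.MP_1611f1_gt.BR.U (Ci)
open Pool.Agent.H.MP_1611f1_gt.G (MTorus Ended)
open Pool.Agent.H.MP_1611f1_gt.PD (Design Cv pt ZX KZ)
open Pool.Agent.H.MP_1611f1_gt.PA (PPar)

variable {S : Type} [TopologicalSpace S] [T2Space S] {J A : Type} [Fintype A] (D : Design S J A)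
  {M : Type} [TopologicalSpace M] {T : Ended M J} (Mt : MTorus D.E (Homeomorph.refl S) T)
  (P : A → PPar) {n : ℕ} (hn : 0 < n)

theorem lin (j : J) (z : ℝ × Ioo (1 : ℝ) 2 × ℝ) {y : ℝ}
    (hy : 0 < y * D.col (D.E.collar j ((z.1 : Ci), z.2.1)))
    (c : OpenPartialHomeomorph M ((ℝ × ℝ) × ℝ)) (hc : c ∈ (D.F0 Mt P hn).charts)
    (hs : T.cov j z ∈ c.source) :
    OrdEq z (fun w => (c (T.cov j w)).2) (fun w => 0 * w.1 + y * w.2.2) := by
  let q : ℝ × Ioo (1 : ℝ) 2 × ℝ → S × ℝ := fun w => (D.E.collar j ((w.1 : Ci), w.2.1), w.2.2)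
  have hq : Continuous q := by
    refine Continuous.prodMk ((D.E.emb j).continuous.comp ?_) (by fun_prop)
    refine Continuous.prodMk ?_ (by fun_prop)
    exact (AddCircle.continuous_mk' (1 : ℝ)).comp continuous_fst
  have hp : ∀ w, T.cov j w = Mt.p (q w) := fun w => Mt.tor j _ _ _
  have hKZ : ∀ i, ∀ x ∈ KZ, ∀ w, D.w i x ≠ (q w).1 := by
    intro i x hx w
    refine D.out i x ?_ j _
    rcases hx with h | ⟨h, b, h1, h2, h3⟩
    · exact Or.inl (by linarith)
    · rcases h1.eq_or_lt with h4 | h4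
      · left
        rw [h3, ← h4, AddCircle.coe_zero, norm_zero]
        norm_num
      · refine Or.inr ⟨?_, b, h4, by linarith, h3⟩
        rcases h with h | h
        · exact Or.inl (by linarith)
        · exact Or.inr (by linarith)
  have hΩ : q z ∈ D.Om := Or.inl fun i => by
    rintro ⟨x, hx, he⟩
    exact hKZ i x hx z he
  rw [hp] at hs
  have h1 := D.germ_zero Mt P hn (q := q) (z := z) hq.continuousAt hΩ
    (fun l => Eventually.of_forall fun w => D.c_end j _ l) hc hs
  obtain ⟨e, he⟩ : ∃ e, e = D.col (q z).1 := ⟨_, rfl⟩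
  have he2 : e * e = 1 := by
    rw [he]
    rcases D.col_pm (q z).1 with h | h <;> rw [h] <;> norm_num
  have hy' : 0 < y * e := by rw [he]; exact hy
  rw [← he] at h1
  have h2 : OrdEq z (fun w => e * (q w).2) (fun w => 0 * w.1 + y * w.2.2) := by
    refine OrdEq.of_comp (fun s => (y * e) * s)
      (fun a b hab => mul_lt_mul_of_pos_left hab hy') (Eventually.of_forall fun w => ?_)
    show 0 * w.1 + y * w.2.2 = y * e * (e * w.2.2)
    have h3 : y * e * (e * w.2.2) = y * (e * e) * w.2.2 := by ring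
    rw [h3, he2]
    ring
  exact (h1.trans h2).congr (Eventually.of_forall fun w => by rw [hp])
    (Eventually.of_forall fun w => rfl)

end Pool.Agent.H.MP_1611f1_gt.PF
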