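import Pool.Agent.H.MP_1611f1_gt.PF.Cvs
import Pool.Agent.H.MP_1611f1_gt.PF.Lin
import Pool.Agent.H.MP_1611f1_gt.PD.Old
import Pool.Agent.H.MP_1611f1_gt.PZ.Asm
import Pool.Agent.H.MP_1611f1_gt.PA.TaC
import Pool.Agent.H.MP_1611f1_gt.PA.Ex
import Pool.Agent.H.MP_1611f1_gt.G.Neg

/-!
The theorem on surfaces with a design.
-/

namespace Pool.Agent.H.MP_1611f1_gt.PF

open Topology Set Filter
open Pool.Agent.H.MP_1611f1_gt.BR.U (Ci)
open Pool.Agent.H.MP_1611f1_gt.G (MTorus Ended Detected)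
open Pool.Agent.H.MP_1611f1_gt.LG (Cylinder Drilled)
open Pool.Agent.H.MP_1611f1_gt.PD (Design Cv)
open Pool.Agent.H.MP_1611f1_gt.PA (VX CX PPar)

section

variable {S : Type} [TopologicalSpace S] {A W I : Type} [Finite A] [Nonempty A] [Finite W]
  [Finite I] {J : Type} {old : J → Prop} {D : Design S {j // old j} A} (Q : Plan D W I)
  {M₀ : Type} [TopologicalSpace M₀] [T2Space M₀] {T₀ : Ended M₀ {j // old j}}
  (Mt : MTorus D.E (Homeomorph.refl S) T₀) (q : A ⊕ (W ⊕ I) ≃ {j // ¬ old j})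
  {M : Type} [TopologicalSpace M] {T : Ended M J}
  (Dr : Drilled T₀ (fun j => Q.nbh Mt (q.symm j)) T) {x y : J → ℝ}

include Q Mt q Dr

theorem detected_pos
    (hold : ∀ j : {j // old j}, x j = 0 ∧ ∀ z, 0 < y j * D.col (D.E.collar j z))
    (hA : ∀ i, 0 < x (q (.inl i)).1 ∧ x (q (.inl i)).1 ≤ -y (q (.inl i)).1)
    (hW : ∀ j, x (q (.inr (.inl j))).1 ≠ 0)
    (hI : ∀ j, x (q (.inr (.inr j))).1 + Q.k j * y (q (.inr (.inr j))).1 ≠ 0) :
    Detected T x y := by
  obtain ⟨hF⟩ := nonempty_fintype A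
  have : T2Space S := by
    have hc : Continuous fun s : S => Mt.p (s, (0 : ℝ)) :=
      Mt.p_loc.continuous.comp (by fun_prop)
    have hi : Function.Injective fun s : S => Mt.p (s, (0 : ℝ)) := by
      intro s s' h
      exact ((D.p_eq_iff Mt s 0 s' 0).1 h).1
    exact T2Space.of_injective_continuous hi hc
  have : Finite {j // ¬ old j} := Finite.of_equiv _ q
  have hμ : ∀ i, ∃ P : PPar, P.μ = -(y (q (.inl i)).1 / x (q (.inl i)).1) := by
    intro i
    obtain ⟨h1, h2⟩ := hA i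
    refine PA.exists_ppar ?_
    rw [← neg_div, le_div_iff₀ h1, one_mul]
    exact h2
  choose P hP using hμ
  refine PZ.pq_detected (D.old Mt P Q.n_pos) (fun G H y hy => H.up (D.old Mt P Q.n_pos) hy) ?_
    (Q.cvs Mt P q) Dr ?_ ?_
  · intro j z _ c hc hs
    have h := lin D Mt P Q.n_pos j z ((hold j).2 _) c hc hs
    rw [(hold j).1]
    exact h
  · intro i
    obtain ⟨h1, h2⟩ := hA i
    refine ⟨h1, ?_⟩
    rw [hP, neg_mul, neg_neg, div_mul_cancel₀ _ h1.ne']
  · intro j hj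
    obtain ⟨c, rfl⟩ := q.surjective j
    rw [Q.kk_q]
    rcases c with i | c | c
    · exact absurd rfl (hj i)
    · show x (q (.inr (.inl c))).1 + ((0 : ℕ) : ℝ) * _ ≠ 0
      rw [Nat.cast_zero, zero_mul, add_zero]
      exact hW c
    · exact hI c

/-- **Theorem.** -/
theorem detected {ε : ℝ} (hε : ε = 1 ∨ ε = -1)
    (hold : ∀ j : {j // old j}, x j = 0 ∧ ∀ z, 0 < ε * y j * D.col (D.E.collar j z))
    (hA : ∀ i, 0 < ε * x (q (.inl i)).1 ∧ ε * x (q (.inl i)).1 ≤ -(ε * y (q (.inl i)).1))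
    (hW : ∀ j, x (q (.inr (.inl j))).1 ≠ 0)
    (hI : ∀ j, x (q (.inr (.inr j))).1 + Q.k j * y (q (.inr (.inr j))).1 ≠ 0) :
    Detected T x y := by
  rcases hε with rfl | rfl
  · simp only [one_mul] at hold hA
    exact detected_pos Q Mt q Dr hold hA hW hI
  · have h := detected_pos Q Mt q Dr (x := fun j => -x j) (y := fun j => -y j) ?_ ?_ ?_ ?_
    · have h' := h.neg
      simpa only [neg_neg] using h'
    · intro j
      obtain ⟨h1, h2⟩ := hold j
      exact ⟨by rw [h1, neg_zero], fun z => by have := h2 z; linarith⟩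
    · intro i
      obtain ⟨h1, h2⟩ := hA i
      constructor <;> linarith
    · intro j
      exact neg_ne_zero.2 (hW j)
    · intro j h1
      refine hI j ?_
      linarith

end

end Pool.Agent.H.MP_1611f1_gt.PF
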